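import Pool.Agent.helper12.DD.Spec

set_option autoImplicit false

open Pool.Agent.helper49.Blk

namespace Pool.Agent.DD

theorem TRG (h1 : CJC_stmt) (h2 : CJR_stmt) (h3 : FIN_stmt) : TRG_stmt := by
  intro G _ _ p T hT f hf
  classical
  obtain ⟨heq, hrad⟩ := h2 G
  have hS : {C : List (Subgroup G) | Radical p C}.Finite := (h3 G p).1
  rw [finsum_mem_eq_finite_toFinset_sum _ hS]
  -- representatives
  have hex : ∀ C : List (Subgroup G), ∃ D, Radical p C → D ∈ T ∧ Conj C D := by
    intro C
    by_cases hC : Radical p C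
    · obtain ⟨D, hD, hCD⟩ := hT.ex C hC
      exact ⟨D, fun _ => ⟨hD, hCD⟩⟩
    · exact ⟨C, fun h => absurd h hC⟩
  choose rep hrep using hex
  have hmaps : ∀ C ∈ hS.toFinset, rep C ∈ T := by
    intro C hC
    exact (hrep C (by simpa using hC)).1
  rw [← Finset.sum_fiberwise_of_maps_to hmaps]
  refine Finset.sum_congr rfl ?_
  intro D hD
  have hDr := hT.rad D hD
  have hGpos : 0 < Nat.card G := Nat.card_pos
  -- the class of D
  have hset : ((hS.toFinset.filter fun C => rep C = D : Finset (List (Subgroup G))) :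
      Set (List (Subgroup G))) = {C | Conj D C} := by
    ext C
    simp only [Finset.coe_filter, Set.Finite.mem_toFinset, Set.mem_setOf_eq]
    constructor
    · rintro ⟨hC, hCD⟩
      have := (hrep C hC).2
      rw [hCD] at this
      exact heq.symm this
    · intro hDC
      have hC : Radical p C := hrad p D C hDC hDr
      refine ⟨hC, ?_⟩
      obtain ⟨ha, hb⟩ := hrep C hC
      exact hT.uniq _ ha _ hD (heq.symm (heq.trans hDC hb))
  have hcls : ∀ C, Conj D C → {C' | Conj C C'} = {C' : List (Subgroup G) | Conj D C'} := by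
    intro C hDC
    ext C'
    exact ⟨fun h => heq.trans hDC h, fun h => heq.trans (heq.symm hDC) h⟩
  have hDc := h1 G D
  have hncpos : 0 < {C' : List (Subgroup G) | Conj D C'}.ncard := by
    rcases Nat.eq_zero_or_pos ({C' : List (Subgroup G) | Conj D C'}.ncard) with h | h
    · rw [h, zero_mul] at hDc
      omega
    · exact h
  have hval : ∀ C ∈ hS.toFinset.filter (fun C => rep C = D),
      f C * (Nat.card (NC C) : ℚ) / (Nat.card G : ℚ) =
        f D * (Nat.card (NC D) : ℚ) / (Nat.card G : ℚ) := by
    intro C hC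
    have hC' : C ∈ ((hS.toFinset.filter fun C => rep C = D : Finset (List (Subgroup G))) :
      Set (List (Subgroup G))) := hC
    rw [hset] at hC'
    have hDC : Conj D C := hC'
    have e1 := h1 G C
    rw [hcls C hDC] at e1
    have e2 : Nat.card (NC C) = Nat.card (NC D) :=
      Nat.eq_of_mul_eq_mul_left hncpos (e1.trans hDc.symm)
    rw [e2, hf D C hDC]
  rw [Finset.sum_congr rfl hval, Finset.sum_const, nsmul_eq_mul]
  have hcard : ((hS.toFinset.filter fun C => rep C = D).card) =
      {C' : List (Subgroup G) | Conj D C'}.ncard := by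
    rw [← hset, Set.ncard_coe_finset]
  rw [hcard]
  have hG : (Nat.card G : ℚ) ≠ 0 := by exact_mod_cast hGpos.ne'
  have hq : ({C' : List (Subgroup G) | Conj D C'}.ncard : ℚ) * (Nat.card (NC D) : ℚ) =
      (Nat.card G : ℚ) := by exact_mod_cast hDc
  rw [mul_div_assoc', eq_div_iff hG, ← hq]
  ring

end Pool.Agent.DD
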